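import Pool.Agent.NNDT.Core

/-!
# Boolean combinations of nondeterministic circuits with few negations

The transfer theorem and the direct product argument for an arbitrary Boolean function of the answers of
`q` nondeterministic circuits, for the conjunction of many functions on disjoint sets of variables.
-/

set_option autoImplicit false

namespace Pool.Agent.NLQ

open Finset Pool.Agent.NegLim Pool.Agent.NNDT

variable {E ι : Type} {s t q : ℕ}

/-- The circuit accepts `x` with a witness whose first part is `u`. -/
def AccU (C : NCirc E s t) (x : E → Bool) (u : Fin s → Bool) : Prop :=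
  ∃ w, C.out.val x u w (vals C.gates x u w) = true

lemma gvals_not (z : ℕ → Bool) (C : List (Gate E s t)) (x : E → Bool) (u : Fin s → Bool)
    (w : Fin t → Bool) (n : ℕ) (hn : ∃ a, C[n]? = some (Gate.not a)) :
    (gvals z C x u w)[n]? = some (z n) := by
  induction C using List.reverseRecOn with
  | nil =>
    obtain ⟨a, ha⟩ := hn
    simp at ha
  | append_singleton C g ih =>
    rw [gvals_concat]
    obtain ⟨a, ha⟩ := hn
    rcases lt_trichotomy n C.length with h | h | h
    · rw [List.getElem?_append_left (by rw [gvals_length]; exact h)]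
      exact ih ⟨a, by rwa [List.getElem?_append_left h] at ha⟩
    · subst h
      rw [List.getElem?_append_right le_rfl] at ha
      simp only [Nat.sub_self, List.getElem?_cons_zero, Option.some.injEq] at ha
      subst ha
      rw [List.getElem?_append_right (by rw [gvals_length]), gvals_length]
      simp [Gate.isNot]
    · rw [List.getElem?_eq_none (by simp; omega)] at ha
      cases ha

lemma good_of_eq {z : ℕ → Bool} {C : List (Gate E s t)} {x : E → Bool} {u : Fin s → Bool}
    {w : Fin t → Bool} (h : gvals z C x u w = vals C x u w) : Good z C x u w := by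
  intro n hn
  rw [← h]
  exact gvals_not z C x u w n hn

lemma good_guess1 (C : NCirc E s t) (hN : C.NotsFree) {R x : E → Bool} {u : Fin s → Bool}
    (h : num C.gates R u (fun _ => false) = num C.gates x u fun _ => false)
    (w : Fin t → Bool) : Good (guess C R u) C.gates x u w := by
  intro n hn
  rw [hN n hn x u w fun _ => false, ← num_inj C.gates h n hn]
  have hlt : n < (vals C.gates R u fun _ => false).length := by
    rw [vals_length]
    obtain ⟨a, ha⟩ := hn
    exact (List.getElem?_eq_some_iff.1 ha).1
  unfold guess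
  rw [List.getD_eq_getElem _ _ hlt, List.getElem?_eq_getElem hlt]

lemma accU_mono (C : NCirc E s t) (hN : C.NotsFree) {x x' : E → Bool}
    (hx : ∀ e, x e = true → x' e = true) {u : Fin s → Bool}
    (h : num C.gates x u (fun _ => false) = num C.gates x' u fun _ => false)
    (ha : AccU C x u) : AccU C x' u := by
  obtain ⟨w, hw⟩ := ha
  refine ⟨w, ?_⟩
  have h1 := good_guess1 C hN (R := x) (x := x) (u := u) rfl w
  have h2 := good_guess1 C hN (R := x) (x := x') (u := u) h w
  rw [← h1.gvals] at hw
  rw [← h2.gvals]
  exact Wire.val_mono hx (gvals_mono _ _ u w hx) _ hw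

open Classical in
/-- The number of the vector of the outputs of the NOT gates, with one more digit which says that the
circuit does not accept. -/
noncomputable def num2 (C : NCirc E s t) (x : E → Bool) (u : Fin s → Bool) : ℕ :=
  2 * num C.gates x u (fun _ => false) + if AccU C x u then 0 else 1

lemma num2_lt (C : NCirc E s t) (x : E → Bool) (u : Fin s → Bool) :
    num2 C x u < 2 ^ (C.nots + 1) := by
  have h := num_lt C.gates x u fun _ => false
  unfold num2 NCirc.nots
  rw [pow_succ]
  split_ifs <;> omega

lemma num2_le (C : NCirc E s t) (hN : C.NotsFree) {x x' : E → Bool}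
    (hx : ∀ e, x e = true → x' e = true) (u : Fin s → Bool) : num2 C x' u ≤ num2 C x u := by
  have h1 := num_le C.gates u (fun _ => false) hx
  unfold num2
  by_cases h2 : num C.gates x u (fun _ => false) = num C.gates x' u fun _ => false
  · have h3 := accU_mono C hN hx h2
    by_cases h4 : AccU C x u
    · rw [if_pos h4, if_pos (h3 h4)]
      omega
    · rw [if_neg h4]
      split_ifs <;> omega
  · split_ifs <;> omega

lemma num2_inj {C : NCirc E s t} {x x' : E → Bool} {u : Fin s → Bool}
    (h : num2 C x u = num2 C x' u) :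
    num C.gates x u (fun _ => false) = num C.gates x' u (fun _ => false) ∧
      (AccU C x u ↔ AccU C x' u) := by
  unfold num2 at h
  by_cases h1 : AccU C x u
  · by_cases h2 : AccU C x' u
    · rw [if_pos h1, if_pos h2] at h
      exact ⟨by omega, iff_of_true h1 h2⟩
    · rw [if_pos h1, if_neg h2] at h
      omega
  · by_cases h2 : AccU C x' u
    · rw [if_neg h1, if_pos h2] at h
      omega
    · rw [if_neg h1, if_neg h2] at h
      exact ⟨by omega, iff_of_false h1 h2⟩

/-- The sum of these numbers. -/
noncomputable def PhiB (C : Fin q → NCirc E s t) (x : E → Bool) : ℕ :=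
  ∑ p : Fin q × (Fin s → Bool), num2 (C p.1) x p.2

lemma PhiB_le (C : Fin q → NCirc E s t) {r : ℕ} (hr : ∀ i, (C i).nots ≤ r) (x : E → Bool) :
    PhiB C x ≤ q * 2 ^ s * (2 ^ (r + 1) - 1) := by
  unfold PhiB
  calc _ ≤ ∑ _p : Fin q × (Fin s → Bool), (2 ^ (r + 1) - 1) := by
        apply Finset.sum_le_sum
        intro p _
        have h1 := num2_lt (C p.1) x p.2
        have h2 : 2 ^ ((C p.1).nots + 1) ≤ 2 ^ (r + 1) :=
          Nat.pow_le_pow_right (by norm_num) (Nat.succ_le_succ (hr p.1))
        omega
    _ = _ := by
        rw [Finset.sum_const, smul_eq_mul, Finset.card_univ, Fintype.card_prod, Fintype.card_fun,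
          Fintype.card_bool, Fintype.card_fin, Fintype.card_fin]

lemma PhiB_mono (C : Fin q → NCirc E s t) (hN : ∀ i, (C i).NotsFree) {x x' : E → Bool}
    (hx : ∀ e, x e = true → x' e = true) : PhiB C x' ≤ PhiB C x :=
  Finset.sum_le_sum fun p _ => num2_le (C p.1) (hN p.1) hx p.2

lemma num2_eq_of_PhiB (C : Fin q → NCirc E s t) (hN : ∀ i, (C i).NotsFree) {x x' : E → Bool}
    (hx : ∀ e, x e = true → x' e = true) (h : PhiB C x ≤ PhiB C x') (i : Fin q)
    (u : Fin s → Bool) : num2 (C i) x' u = num2 (C i) x u := by
  have h1 : PhiB C x' = PhiB C x := le_antisymm (PhiB_mono C hN hx) h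
  exact (Finset.sum_eq_sum_iff_of_le fun (p : Fin q × (Fin s → Bool)) _ =>
    num2_le (C p.1) (hN p.1) hx p.2).1 h1 (i, u) (mem_univ _)

/-- Conjunction of many functions. -/
lemma monSize_all {V P : Type} (G : P → (V → Bool) → Bool) {K : ℕ}
    (hG : ∀ p, MonSize (G p) K) (ps : List P) :
    MonSize (fun x => ps.all fun p => G p x) (ps.length * (K + 1)) := by
  induction ps with
  | nil => exact ⟨[], Mon.nil, by simp, Avail.const _ true⟩
  | cons p ps ih =>
    obtain ⟨L, h1, h2, h3⟩ := ih
    obtain ⟨L', h1', h2', h3'⟩ := hG p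
    refine ⟨_, Mon.and (h1'.append h1) (h3'.mono fun _ h => List.mem_append_left _ h)
      (h3.mono fun _ h => List.mem_append_right _ h), ?_, ?_⟩
    · simp only [List.length_cons, List.length_append]
      rw [Nat.add_mul]
      omega
    · exact Avail.head _ _

section

variable (B : ι → Set E) (hB : ∀ i j, i ≠ j → Disjoint (B i) (B j)) (c : E → Bool)
  (φ : ι → (E → Bool) → Bool) (hloc : ∀ i x x', (∀ e ∈ B i, x e = x' e) → φ i x = φ i x')

include hB hloc

/-- **Transfer theorem for Boolean combinations.** The functions `φ i` depend only on the variables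
in the disjoint sets `B i` and are `true` on the input without zeros; the Boolean function `D` of the
answers of the `q` nondeterministic circuits is their conjunction on the inputs which are equal to
`c` outside the sets. Then all but few of the functions `φ i` are the disjunction of functions
`F p`, one for every `q`-tuple of witnesses, with small monotone programs. -/
theorem transferq (htop : ∀ i, φ i (fun _ => true) = true) (C : Fin q → NCirc E s t)
    (hN : ∀ i, (C i).NotsFree) {r G : ℕ} (hr : ∀ i, (C i).nots ≤ r)
    (hG : ∀ i, (C i).gates.length ≤ G) (D : (Fin q → Prop) → Prop)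
    (hC : ∀ x, (∀ e, (∀ i, e ∉ B i) → x e = c e) →
      ((D fun i => (C i).Acc x) ↔ ∀ i, φ i x = true)) :
    ∃ A : Finset ι, A.card ≤ q * 2 ^ s * (2 ^ (r + 1) - 1) ∧
      ∀ i, i ∉ A → ∃ F : (Fin q → Fin t → Bool) → (E → Bool) → Bool,
        (∀ p, MonSize (F p) (q * 2 ^ s * (G + 2))) ∧ ∀ y, φ i y = true ↔ ∃ p, F p y = true := by
  classical
  set Adm : (E → Bool) → Finset ι → Prop := fun R A =>
    (∀ e, (∀ i, e ∉ B i) → R e = c e) ∧ (∀ i, i ∉ A → ∀ e ∈ B i, R e = true) ∧
      ∀ i, φ i R = true with hAdm
  have hmem : ∀ {i j e}, e ∈ B i → e ∈ B j → i = j := by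
    intro i j e h1 h2
    by_contra h
    exact Set.disjoint_left.1 (hB i j h) h1 h2
  obtain ⟨R, A, ⟨hR1, hR2, hR3⟩, hA, hmax⟩ := greedy (q * 2 ^ s * (2 ^ (r + 1) - 1)) (PhiB C)
    (PhiB_le C hr) Adm (fun e => if ∃ i, e ∈ B i then true else c e) (by
      refine ⟨fun e he => if_neg ?_, fun i _ e he => if_pos ⟨i, he⟩,
        fun i => (hloc i _ _ fun e he => ?_).trans (htop i)⟩
      · rintro ⟨i, hi⟩
        exact he i hi
      · exact if_pos ⟨i, he⟩)
  refine ⟨A, hA, fun i hi => ?_⟩
  have hle : ∀ y e, upd R (B i) y e = true → R e = true := by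
    intro y e h
    by_cases he : e ∈ B i
    · exact hR2 i hi e he
    · rwa [upd_notMem he] at h
  have hout : ∀ y e, (∀ j, e ∉ B j) → upd R (B i) y e = c e := by
    intro y e he
    rw [upd_notMem (he i)]
    exact hR1 e he
  have hφi : ∀ y, φ i (upd R (B i) y) = φ i y := fun y => hloc i _ _ fun e he => upd_mem he
  have hφj : ∀ y j, j ≠ i → φ j (upd R (B i) y) = true := by
    intro y j hj
    refine (hloc j _ _ fun e he => ?_).trans (hR3 j)
    exact upd_notMem fun h => hj (hmem he h)
  have hDR : D fun j => (C j).Acc R := (hC R hR1).2 hR3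
  -- nothing changes if the function of the block is `true`
  have hsame : ∀ y, φ i y = true → ∀ j u,
      num (C j).gates R u (fun _ => false) = num (C j).gates (upd R (B i) y) u (fun _ => false) ∧
      (AccU (C j) R u ↔ AccU (C j) (upd R (B i) y) u) := by
    intro y hy j u
    apply num2_inj
    refine num2_eq_of_PhiB C hN (hle y) ?_ j u
    refine hmax i hi (upd R (B i) y) ⟨hout y, ?_, ?_⟩
    · intro k hk e he
      rw [Finset.mem_insert, not_or] at hk
      rw [upd_notMem fun h => hk.1 (hmem he h)]
      exact hR2 k hk.2 e he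
    · intro k
      by_cases h : k = i
      · subst h
        rw [hφi, hy]
      · exact hφj y k h
  have hgoodR : ∀ j u w, Good (guess (C j) R u) (C j).gates R u w :=
    fun j u w => good_guess1 (C j) (hN j) rfl w
  -- the chosen first parts of the witnesses
  obtain ⟨sel, hsel⟩ : ∃ sel : Fin q → Option (Fin s → Bool), ∀ j,
      ((∃ u, AccU (C j) R u) → ∃ u, sel j = some u ∧ AccU (C j) R u) ∧
      ((¬ ∃ u, AccU (C j) R u) → sel j = none) := by
    refine ⟨fun j => if h : ∃ u, AccU (C j) R u then some h.choose else none, fun j => ⟨?_, ?_⟩⟩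
    · intro h
      exact ⟨h.choose, dif_pos h, h.choose_spec⟩
    · intro h
      exact dif_neg h
  set f1 : Fin q × (Fin s → Bool) → (Fin t → Bool) → (E → Bool) → Bool := fun a w y =>
    chkA (guess (C a.1) R a.2) (C a.1).gates (upd R (B i) y) a.2 w &&
      (if sel a.1 = some a.2 then (C a.1).out.val (upd R (B i) y) a.2 w
        (gvals (guess (C a.1) R a.2) (C a.1).gates (upd R (B i) y) a.2 w) else true) with hf1
  have hf1size : ∀ a w, MonSize (f1 a w) (G + 1) := by
    rintro ⟨j, u⟩ w
    obtain ⟨L, h1, h2, h3, h4⟩ := prog (isProj_upd R (B i)) (guess (C j) R u) (C j).gates u w false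
    have h6 : Avail L fun y => (if sel j = some u then (C j).out.val (upd R (B i) y) u w
        (gvals (guess (C j) R u) (C j).gates (upd R (B i) y) u w) else true) := by
      by_cases hs : sel j = some u
      · simp only [if_pos hs]
        cases (C j).out with
        | inp e => exact (isProj_upd R (B i) e).mono (by simp)
        | wit φ => exact Avail.const _ _
        | gate n => exact h3 n
      · simp only [if_neg hs]
        exact Avail.const _ _
    exact ⟨_, Mon.and h1 h4 h6, by simpa using h2.trans (hG j), Avail.head _ _⟩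
  set ps : List (Fin q × (Fin s → Bool)) :=
    (univ : Finset (Fin q × (Fin s → Bool))).toList with hps
  have hpslen : ps.length = q * 2 ^ s := by
    rw [hps, Finset.length_toList, Finset.card_univ, Fintype.card_prod, Fintype.card_fun,
      Fintype.card_bool, Fintype.card_fin, Fintype.card_fin]
  refine ⟨fun p y => ps.all fun a => f1 a (p a.1) y, fun p => ?_, fun y => ⟨fun hy => ?_, ?_⟩⟩
  · have h := monSize_all (fun a => f1 a (p a.1)) (fun a => hf1size a (p a.1)) ps
    rw [hpslen] at h
    exact h
  · -- the witnesses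
    have hw : ∀ j : Fin q, ∃ w : Fin t → Bool, ∀ u, sel j = some u →
        (C j).out.val (upd R (B i) y) u w (vals (C j).gates (upd R (B i) y) u w) = true := by
      intro j
      by_cases h : ∃ u, AccU (C j) R u
      · obtain ⟨u, hu, ha⟩ := (hsel j).1 h
        obtain ⟨w, hw⟩ := (hsame y hy j u).2.1 ha
        refine ⟨w, fun u' hu' => ?_⟩
        rw [hu, Option.some.injEq] at hu'
        subst hu'
        exact hw
      · refine ⟨fun _ => false, fun u hu => ?_⟩
        rw [(hsel j).2 h] at hu
        cases hu
    choose p hp using hw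
    refine ⟨p, ?_⟩
    rw [List.all_eq_true]
    rintro ⟨j, u⟩ _
    have hgood : Good (guess (C j) R u) (C j).gates (upd R (B i) y) u (p j) :=
      good_guess1 (C j) (hN j) (hsame y hy j u).1 (p j)
    simp only [hf1]
    rw [Bool.and_eq_true]
    refine ⟨chkA_of_good hgood, ?_⟩
    by_cases hs : sel j = some u
    · rw [if_pos hs, hgood.gvals]
      exact hp j u hs
    · rw [if_neg hs]
  · rintro ⟨p, hp⟩
    rw [List.all_eq_true] at hp
    have hp' : ∀ j u, chkA (guess (C j) R u) (C j).gates (upd R (B i) y) u (p j) = true ∧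
        (sel j = some u → (C j).out.val (upd R (B i) y) u (p j)
          (gvals (guess (C j) R u) (C j).gates (upd R (B i) y) u (p j)) = true) := by
      intro j u
      have h := hp (j, u) (by rw [hps, Finset.mem_toList]; exact mem_univ _)
      simp only [hf1] at h
      rw [Bool.and_eq_true] at h
      refine ⟨h.1, fun hs => ?_⟩
      have h2 := h.2
      rw [if_pos hs] at h2
      exact h2
    have hgood : ∀ j u w, Good (guess (C j) R u) (C j).gates (upd R (B i) y) u w := by
      intro j u w
      have h1 := keyA (hle y) (hgoodR j u (p j)) (hp' j u).1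
      have h2 := good_of_eq h1
      intro n hn
      rw [hN j n hn (upd R (B i) y) u w (p j)]
      exact h2 n hn
    have hacc : (fun j => (C j).Acc (upd R (B i) y)) = fun j => (C j).Acc R := by
      funext j
      apply propext
      constructor
      · rintro ⟨u, w, h⟩
        refine ⟨u, w, ?_⟩
        rw [← (hgood j u w).gvals] at h
        rw [← (hgoodR j u w).gvals]
        exact Wire.val_mono (hle y) (gvals_mono _ _ u w (hle y)) _ h
      · intro h
        obtain ⟨u, hu, _⟩ := (hsel j).1 h
        refine ⟨u, p j, ?_⟩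
        rw [← (hgood j u (p j)).gvals]
        exact (hp' j u).2 hu
    have h3 : ∀ k, φ k (upd R (B i) y) = true := by
      rw [← hC _ (hout y), hacc]
      exact hDR
    have h4 := h3 i
    rwa [hφi] at h4

end

open Classical in
/-- The core for Boolean combinations. -/
theorem coreq {E : Type} {s t m q r G : ℕ} {X : Type} [Fintype X] (hX : 0 < Fintype.card X)
    (B : Fin m → Set E) (hB : ∀ i j e, e ∈ B i → e ∈ B j → i = j)
    (f : Fin m → (E → Bool) → Bool)
    (hloc : ∀ i x x', (∀ e ∈ B i, x e = x' e) → f i x = f i x')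
    (htop : ∀ i, f i (fun _ => true) = true)
    (pos : Fin m → X → E → Bool) (hpos : ∀ i a, f i (pos i a) = true)
    (C : Fin q → NCirc E s t) (hN : ∀ i, (C i).NotsFree) (hr : ∀ i, (C i).nots ≤ r)
    (hG : ∀ i, (C i).gates.length ≤ G) (D : (Fin q → Prop) → Prop)
    (hC : ∀ x, (∀ e, (∀ i, e ∉ B i) → x e = true) →
      ((D fun i => (C i).Acc x) ↔ ∀ i, f i x = true))
    (hm : (q * 2 ^ (s + r + 1) + 1) * (3 * (q * t) + 1) ≤ m) :
    ∃ (i : Fin m) (h : (E → Bool) → Bool), MonSize h (q * 2 ^ s * (G + 2)) ∧
      (∀ y, h y = true → f i y = true) ∧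
      3 * Fintype.card X < 4 * (univ.filter fun a => h (pos i a) = true).card := by
  -- the groups
  set M := q * 2 ^ (s + r + 1) + 1 with hM
  set m' := 3 * (q * t) + 1 with hm'
  let idx : Fin M → Fin m' → Fin m := fun g i => Fin.castLE hm (finProdFinEquiv (g, i))
  have hidx : ∀ g i g' i', idx g i = idx g' i' → g = g' ∧ i = i' := by
    intro g i g' i' h
    have h1 := finProdFinEquiv.injective (Fin.castLE_injective hm h)
    exact ⟨congrArg Prod.fst h1, congrArg Prod.snd h1⟩
  have hgrp : ∀ g i g' i' e, e ∈ B (idx g i) → e ∈ B (idx g' i') → g = g' ∧ i = i' := by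
    intro g i g' i' e h1 h2
    exact hidx g i g' i' (hB _ _ e h1 h2)
  obtain ⟨A, hA, hAF⟩ := transferq (fun g : Fin M => {e | ∃ i, e ∈ B (idx g i)})
    (fun g g' hgg => Set.disjoint_left.2 (by
      rintro e ⟨i, h1⟩ ⟨i', h2⟩
      exact hgg (hgrp g i g' i' e h1 h2).1))
    (fun _ => true) (fun g x => decide (∀ i, f (idx g i) x = true))
    (by
      intro g x x' hx
      have h1 : ∀ i, f (idx g i) x = f (idx g i) x' :=
        fun i => hloc _ _ _ fun e he => hx e ⟨i, he⟩
      simp only [h1])
    (fun g => decide_eq_true fun i => htop _) C hN hr hG D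
    (by
      intro x hx
      rw [hC x (fun e he => hx e fun g => by
        rintro ⟨i, hi⟩
        exact he _ hi)]
      constructor
      · intro h g
        exact decide_eq_true fun i => h _
      · intro h j
        by_cases hj : ∃ g i, idx g i = j
        · obtain ⟨g, i, rfl⟩ := hj
          exact of_decide_eq_true (h g) i
        · rw [← htop j]
          apply hloc
          intro e he
          apply hx
          intro g
          rintro ⟨i, hi⟩
          exact hj ⟨g, i, hB _ _ e hi he⟩)
  obtain ⟨g, hg⟩ : ∃ g, g ∉ A := by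
    by_contra hall
    push Not at hall
    have h3 : (univ : Finset (Fin M)) ⊆ A := fun i _ => hall i
    have h4 := Finset.card_le_card h3
    rw [Finset.card_univ, Fintype.card_fin] at h4
    have h5 : q * 2 ^ s * (2 ^ (r + 1) - 1) ≤ q * 2 ^ (s + r + 1) := by
      calc q * 2 ^ s * (2 ^ (r + 1) - 1) ≤ q * 2 ^ s * 2 ^ (r + 1) :=
            Nat.mul_le_mul_left _ (Nat.sub_le _ _)
        _ = q * 2 ^ (s + r + 1) := by
            rw [mul_assoc, ← pow_add, add_assoc]
    omega
  obtain ⟨F, hFs, hF⟩ := hAF g hg
  -- the inputs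
  let x : (Fin m' → X) → E → Bool := fun χ e =>
    if h : ∃ i, e ∈ B (idx g i) then pos (idx g h.choose) (χ h.choose) e else true
  have hch : ∀ {e i} (h : ∃ i, e ∈ B (idx g i)), e ∈ B (idx g i) → h.choose = i := by
    intro e i h hi
    exact (hgrp g _ g i e h.choose_spec hi).2
  have hx1 : ∀ χ i e, e ∈ B (idx g i) → x χ e = pos (idx g i) (χ i) e := by
    intro χ i e he
    have h : ∃ i, e ∈ B (idx g i) := ⟨i, he⟩
    simp only [x, dif_pos h, hch h he]
  have hxφ : ∀ χ, decide (∀ i, f (idx g i) (x χ) = true) = true := by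
    intro χ
    apply decide_eq_true
    intro i
    rw [← hpos (idx g i) (χ i)]
    exact hloc _ _ _ fun e he => hx1 χ i e he
  -- pigeonhole
  let S : (Fin q → Fin t → Bool) → Finset (Fin m' → X) :=
    fun p => univ.filter fun χ => F p (x χ) = true
  obtain ⟨p, hp⟩ : ∃ p, Fintype.card X ^ m' ≤ 2 ^ (q * t) * (S p).card := by
    obtain ⟨p, _, hp⟩ := Finset.exists_max_image
      (univ : Finset (Fin q → Fin t → Bool)) (fun p => (S p).card) univ_nonempty
    refine ⟨p, ?_⟩
    have h1 : (univ : Finset (Fin m' → X)) ⊆ (univ : Finset _).biUnion S := by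
      intro χ _
      obtain ⟨p', hp'⟩ := (hF (x χ)).1 (hxφ χ)
      exact mem_biUnion.2 ⟨p', mem_univ _, mem_filter.2 ⟨mem_univ _, hp'⟩⟩
    calc Fintype.card X ^ m' = (univ : Finset (Fin m' → X)).card := by
          rw [card_univ, Fintype.card_fun, Fintype.card_fin]
      _ ≤ _ := Finset.card_le_card h1
      _ ≤ ∑ q, (S q).card := Finset.card_biUnion_le
      _ ≤ ∑ _q : Fin q → Fin t → Bool, (S p).card :=
          Finset.sum_le_sum fun q hq => hp q hq
      _ = 2 ^ (q * t) * (S p).card := by
          rw [Finset.sum_const, smul_eq_mul, card_univ, Fintype.card_fun, Fintype.card_fun,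
            Fintype.card_bool, Fintype.card_fin, Fintype.card_fin, ← pow_mul, mul_comm t q]
  obtain ⟨i, pre, hi⟩ := exists_letter (le_refl m') (S p) hX hp
  -- the substitution
  let σ : (E → Bool) → E → Bool := fun y e =>
    if h : ∃ j, e ∈ B (idx g j) then
      (if h.choose < i then pos (idx g h.choose) (pre h.choose) e
        else if h.choose = i then y e else true) else true
  have hσ : IsProj σ := by
    intro e
    by_cases h : ∃ j, e ∈ B (idx g j)
    · by_cases h1 : h.choose < i
      · right; right
        refine ⟨pos (idx g h.choose) (pre h.choose) e, ?_⟩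
        funext y
        simp only [σ, dif_pos h, if_pos h1]
      · by_cases h2 : h.choose = i
        · right; left
          refine ⟨e, ?_⟩
          funext y
          simp only [σ, dif_pos h, if_neg h1, if_pos h2]
        · right; right
          refine ⟨true, ?_⟩
          funext y
          simp only [σ, dif_pos h, if_neg h1, if_neg h2]
    · right; right
      refine ⟨true, ?_⟩
      funext y
      simp only [σ, dif_neg h]
  refine ⟨idx g i, fun y => F p (σ y), (hFs p).comp hσ, ?_, ?_⟩
  · intro y hy
    have h1 := of_decide_eq_true ((hF (σ y)).2 ⟨p, hy⟩) i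
    rw [← h1]
    apply hloc
    intro e he
    have h : ∃ j, e ∈ B (idx g j) := ⟨i, he⟩
    simp only [σ, dif_pos h, hch h he, lt_irrefl, if_false, if_true]
  · refine lt_of_lt_of_le hi (Nat.mul_le_mul_left _ (Finset.card_le_card ?_))
    intro a ha
    rw [mem_filter] at ha ⊢
    obtain ⟨_, χ, hχ, hpre, rfl⟩ := ha
    refine ⟨mem_univ _, ?_⟩
    refine MonSize.monotone (hFs p) (x χ) _ ?_ (mem_filter.1 hχ).2
    intro e he
    by_cases h : ∃ j, e ∈ B (idx g j)
    · have he' := hx1 χ h.choose e h.choose_spec
      rw [he] at he'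
      by_cases h1 : h.choose < i
      · simp only [σ, dif_pos h, if_pos h1]
        rw [← hpre _ h1]
        exact he'.symm
      · by_cases h2 : h.choose = i
        · simp only [σ, dif_pos h, if_neg h1, if_pos h2]
          rw [h2] at he'
          exact he'.symm
        · simp only [σ, dif_pos h, if_neg h1, if_neg h2]
    · simp only [σ, dif_neg h]

end Pool.Agent.NLQ
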