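import Pool.Agent.NLQ.Win

/-!
# The exponential lower bound for Boolean combinations
-/

set_option autoImplicit false

namespace Pool.Agent.NLQ

open Pool.Agent.NegLim Pool.Agent.NEG72 Pool.Agent.NNDT

theorem exponentialq (ε : ℝ) (hε : 0 < ε) (hε1 : ε ≤ 1) : ∃ v₀ : ℕ, ∀ v ≥ v₀, ∀ k N : ℕ,
    k = ⌊(v : ℝ) ^ (ε / 32)⌋₊ → N = v * (v - 1) / 2 →
      ∀ (q s t r G : ℕ) (C : Fin q → NCirc (Edge v) s t) (D : (Fin q → Prop) → Prop),
        (∀ i, (C i).NotsFree) → (∀ i, (C i).nots ≤ r) → (∀ i, (C i).gates.length ≤ G) →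
        (∀ x, (D fun i => (C i).Acc x) ↔ nis v k x = true) →
        ((q ^ 2 * 2 ^ (s + r) * (t + 1) : ℕ) : ℝ) ≤ (N : ℝ) ^ (1 - ε) →
        (2 : ℝ) ^ ((N : ℝ) ^ (ε / 200)) ≤ G := by
  obtain ⟨v₁, hv₁⟩ := params ε hε hε1
  have h1 : Filter.Tendsto (fun v : ℕ => (v : ℝ) ^ (ε / 100)) Filter.atTop Filter.atTop :=
    (tendsto_rpow_atTop (by positivity)).comp tendsto_natCast_atTop_atTop
  have h2 : Filter.Tendsto (fun v : ℕ => (v : ℝ) ^ (ε / 64 - ε / 100)) Filter.atTop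
      Filter.atTop :=
    (tendsto_rpow_atTop (by linarith)).comp tendsto_natCast_atTop_atTop
  have h3 : ∀ᶠ v : ℕ in Filter.atTop, ‖Real.log (v : ℝ)‖ ≤ 1 / 100 * ‖(v : ℝ) ^ (ε / 100)‖ :=
    tendsto_natCast_atTop_atTop.eventually
      ((isLittleO_log_rpow_atTop (by positivity)).bound (by norm_num))
  have h4 : Filter.Tendsto (fun v : ℕ => (v : ℝ) ^ ε) Filter.atTop Filter.atTop :=
    (tendsto_rpow_atTop hε).comp tendsto_natCast_atTop_atTop
  obtain ⟨v₂, hv₂⟩ := Filter.eventually_atTop.1 ((h1.eventually_ge_atTop 4).and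
    ((h2.eventually_ge_atTop 4).and (h3.and ((h4.eventually_ge_atTop 100).and
      (Filter.eventually_ge_atTop 2)))))
  refine ⟨max v₁ v₂, fun v hv k N hk hN q s t r G C D hfree hr hG hacc hsr => ?_⟩
  obtain ⟨Q, b, W, hk2, hb0, hD, hw, hQb, hcard, hT⟩ := hv₁ v ((le_max_left _ _).trans hv) k hk
  obtain ⟨g1, g2, g3, g4, g5⟩ := hv₂ v ((le_max_right _ _).trans hv)
  have hv1 : (1 : ℝ) ≤ v := by exact_mod_cast (by omega : 1 ≤ v)
  have hv0 : (0 : ℝ) < v := by linarith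
  set y : ℝ := (v : ℝ) ^ (ε / 100) with hy
  have hy0 : 0 < y := by positivity
  have hNv : (N : ℝ) ≤ (v : ℝ) ^ (2 : ℝ) := by
    have h3 : N ≤ v * v := by
      rw [hN]
      exact (Nat.div_le_self _ _).trans (Nat.mul_le_mul_left _ (Nat.sub_le _ _))
    calc (N : ℝ) ≤ ((v * v : ℕ) : ℝ) := by exact_mod_cast h3
      _ = (v : ℝ) ^ (2 : ℝ) := by
        rw [Real.rpow_two, sq]
        push_cast
        rfl
  have hN1 : 1 ≤ N := by
    rw [hN, Nat.le_div_iff_mul_le (by norm_num)]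
    calc 1 * 2 = 2 * 1 := by ring
      _ ≤ v * (v - 1) := Nat.mul_le_mul g5 (by omega)
  have hN1r : (1 : ℝ) ≤ N := by exact_mod_cast hN1
  have hNy : (N : ℝ) ^ (ε / 200) ≤ y := by
    calc (N : ℝ) ^ (ε / 200) ≤ ((v : ℝ) ^ (2 : ℝ)) ^ (ε / 200) :=
          Real.rpow_le_rpow (by linarith) hNv (by positivity)
      _ = y := by
          rw [← Real.rpow_mul hv0.le, hy]
          congr 1
          ring
  have h4y : 4 * y ≤ (v : ℝ) ^ (ε / 64) := by
    calc 4 * y ≤ (v : ℝ) ^ (ε / 64 - ε / 100) * y := by gcongr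
      _ = (v : ℝ) ^ (ε / 64) := by
        rw [hy, ← Real.rpow_add hv0]
        congr 1
        ring
  -- the number of windows is large enough
  have hNe : (N : ℝ) ^ (1 - ε) ≤ (v : ℝ) ^ (2 - 2 * ε) := by
    calc (N : ℝ) ^ (1 - ε) ≤ ((v : ℝ) ^ (2 : ℝ)) ^ (1 - ε) :=
          Real.rpow_le_rpow (by linarith) hNv (by linarith)
      _ = _ := by
          rw [← Real.rpow_mul hv0.le]
          congr 1
          ring
  have hv22 : (v : ℝ) ^ (2 - 2 * ε) ≤ (v : ℝ) ^ (2 : ℝ) :=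
    Real.rpow_le_rpow_of_exponent_le hv1 (by linarith)
  have hqs : ((q * 2 ^ s : ℕ) : ℝ) ≤ (v : ℝ) ^ (2 : ℝ) := by
    have e1 : ((q * 2 ^ s : ℕ) : ℝ) ≤ ((q ^ 2 * 2 ^ (s + r) * (t + 1) : ℕ) : ℝ) := by
      have : q * 2 ^ s ≤ q ^ 2 * 2 ^ (s + r) * (t + 1) := by
        calc q * 2 ^ s ≤ q ^ 2 * 2 ^ (s + r) := Nat.mul_le_mul (Nat.le_self_pow (by norm_num) q)
              (Nat.pow_le_pow_right (by norm_num) (Nat.le_add_right _ _))
          _ ≤ q ^ 2 * 2 ^ (s + r) * (t + 1) := Nat.le_mul_of_pos_right _ (Nat.succ_pos _)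
      exact_mod_cast this
    exact ((e1.trans hsr).trans hNe).trans hv22
  have hm : (q * 2 ^ (s + r + 1) + 1) * (3 * (q * t) + 1) ≤ Q * W.card := by
    have e0 : (q * 2 ^ (s + r + 1) + 1) * (3 * (q * t) + 1) ≤
        9 * (q ^ 2 * 2 ^ (s + r) * (t + 1)) + 1 := by
      rcases Nat.eq_zero_or_pos q with h0 | h0
      · subst h0
        simp
      · have a1 : q * 2 ^ (s + r + 1) + 1 ≤ 3 * (q * 2 ^ (s + r)) := by
          have h5 : 1 ≤ q * 2 ^ (s + r) := Nat.mul_pos h0 (by positivity)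
          rw [pow_succ]
          calc q * (2 ^ (s + r) * 2) + 1 = 2 * (q * 2 ^ (s + r)) + 1 := by ring
            _ ≤ 3 * (q * 2 ^ (s + r)) := by omega
        have a2 : 3 * (q * t) + 1 ≤ 3 * (q * (t + 1)) := by
          have : 1 ≤ q := h0
          nlinarith
        calc (q * 2 ^ (s + r + 1) + 1) * (3 * (q * t) + 1)
            ≤ (3 * (q * 2 ^ (s + r))) * (3 * (q * (t + 1))) := Nat.mul_le_mul a1 a2
          _ = 9 * (q ^ 2 * 2 ^ (s + r) * (t + 1)) := by ring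
          _ ≤ _ := Nat.le_succ _
    have e1 : (((q * 2 ^ (s + r + 1) + 1) * (3 * (q * t) + 1) : ℕ) : ℝ) ≤
        ((Q * W.card : ℕ) : ℝ) := by
      have e3 : (1 : ℝ) ≤ (v : ℝ) ^ (2 - 2 * ε) := Real.one_le_rpow hv1 (by linarith)
      calc (((q * 2 ^ (s + r + 1) + 1) * (3 * (q * t) + 1) : ℕ) : ℝ)
          ≤ ((9 * (q ^ 2 * 2 ^ (s + r) * (t + 1)) + 1 : ℕ) : ℝ) := by exact_mod_cast e0
        _ = 9 * ((q ^ 2 * 2 ^ (s + r) * (t + 1) : ℕ) : ℝ) + 1 := by push_cast; ring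
        _ ≤ 9 * (v : ℝ) ^ (2 - 2 * ε) + (v : ℝ) ^ (2 - 2 * ε) := by
            have := hsr.trans hNe
            linarith
        _ = 10 * (v : ℝ) ^ (2 - 2 * ε) := by ring
        _ ≤ (v : ℝ) ^ ε * (v : ℝ) ^ (2 - 2 * ε) :=
            mul_le_mul_of_nonneg_right (by linarith) (by linarith)
        _ = (v : ℝ) ^ (2 - ε) := by
            rw [← Real.rpow_add hv0]
            congr 1
            ring
        _ ≤ _ := hcard
    exact_mod_cast e1
  have hmain := hT (2 * (q * 2 ^ s * (G + 2))) fun l p hl hl2 hp =>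
    boundq hk2 hb0 hD hw hQb C hfree hr hG D hacc hm l p hl hl2 hp
  -- the arithmetic
  set z : ℝ := (2 : ℝ) ^ y with hz
  have e4 : (16 : ℝ) ≤ z := by
    calc (16 : ℝ) = (2 : ℝ) ^ (4 : ℝ) := by norm_num
      _ ≤ (2 : ℝ) ^ y := Real.rpow_le_rpow_of_exponent_le (by norm_num) g1
  have hvz : (v : ℝ) ^ (2 : ℝ) ≤ z := by
    have e3 : 0 ≤ Real.log v := Real.log_nonneg hv1
    rw [Real.norm_of_nonneg e3, Real.norm_of_nonneg (by positivity)] at g3
    have e5 := Real.log_two_gt_d9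
    rw [Real.rpow_def_of_pos hv0, hz, Real.rpow_def_of_pos (by norm_num)]
    apply Real.exp_le_exp.2
    nlinarith
  have e1 : (2 : ℝ) ^ (4 * y) ≤ 2 * (z * (G + 2)) := by
    refine (Real.rpow_le_rpow_of_exponent_le (by norm_num) h4y).trans (hmain.trans ?_)
    have e6 : ((2 * (q * 2 ^ s * (G + 2)) : ℕ) : ℝ) = 2 * (((q * 2 ^ s : ℕ) : ℝ) * (G + 2)) := by
      push_cast
      ring
    rw [e6]
    have e7 := hqs.trans hvz
    have e8 : (0 : ℝ) ≤ (G : ℝ) + 2 := by positivity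
    have := mul_le_mul_of_nonneg_right e7 e8
    linarith
  have e2 : (2 : ℝ) ^ ((N : ℝ) ^ (ε / 200)) ≤ z :=
    Real.rpow_le_rpow_of_exponent_le (by norm_num) hNy
  have e3 : (2 : ℝ) ^ (4 * y) = z ^ 4 := by
    rw [hz, ← Real.rpow_natCast, ← Real.rpow_mul (by norm_num)]
    congr 1
    push_cast
    ring
  refine e2.trans ?_
  rw [e3] at e1
  have hz0 : 0 < z := by linarith
  have e5 : z ^ 3 ≤ 2 * (G + 2) := by
    have : z * z ^ 3 ≤ z * (2 * (G + 2)) := by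
      calc z * z ^ 3 = z ^ 4 := by ring
        _ ≤ 2 * (z * (G + 2)) := e1
        _ = z * (2 * (G + 2)) := by ring
    exact le_of_mul_le_mul_left this hz0
  have e6 : 256 * z ≤ z ^ 3 := by
    have : 256 ≤ z ^ 2 := by nlinarith
    calc 256 * z ≤ z ^ 2 * z := mul_le_mul_of_nonneg_right this hz0.le
      _ = z ^ 3 := by ring
  linarith

end Pool.Agent.NLQ
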