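import Pool.Agent.NLQ.Fin
import Pool.Agent.NLM.Low

/-!
# The lower bound for Boolean combinations, for the two modes
-/

set_option autoImplicit false

namespace Pool.Agent.NLQ

open Pool.Agent.NegLim Pool.Agent.NNDT Pool.Agent.NLM
open Pool.Agent.NEG72 (clq_iff nis_iff clq_not)

/-- **The lower bound for Boolean combinations**: `More` is not a Boolean function of the answers of
`q` small circuits in the NP mode, nor of `q` small circuits in the coNP mode. -/
theorem lowerq (ε : ℝ) (hε : 0 < ε) (hε1 : ε ≤ 1) : ∃ v₀ : ℕ, ∀ v ≥ v₀,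
    ∀ (k N q s t r G : ℕ) (C : Fin q → NCirc (Edge v ⊕ Edge v) s t) (D : (Fin q → Prop) → Prop),
      k = ⌊(v : ℝ) ^ (ε / 32)⌋₊ → N = v * (v - 1) / 2 →
      (∀ i, (C i).NotsFree ∧ (C i).nots ≤ r ∧ (C i).gates.length ≤ G) →
      (∀ z, More v k z ↔ D fun i => (C i).Acc z) ∨ (∀ z, More v k z ↔ D fun i => All (C i) z) →
      ((q ^ 2 * 2 ^ (s + r) * (t + 1) : ℕ) : ℝ) ≤ (N : ℝ) ^ (1 - ε) →
      (2 : ℝ) ^ ((N : ℝ) ^ (ε / 200)) ≤ G := by
  obtain ⟨v₁, hv₁⟩ := exponentialq ε hε hε1
  have h1 : Filter.Tendsto (fun v : ℕ => (v : ℝ) ^ (ε / 32)) Filter.atTop Filter.atTop :=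
    (tendsto_rpow_atTop (by positivity)).comp tendsto_natCast_atTop_atTop
  obtain ⟨v₃, hv₃⟩ := Filter.eventually_atTop.1
    ((h1.eventually_ge_atTop 2).and (Filter.eventually_ge_atTop 1))
  refine ⟨max v₁ v₃, fun v hv k N q s t r G C D hk hN hC h hsr => ?_⟩
  have hva : v₁ ≤ v := (le_max_left _ _).trans hv
  obtain ⟨g1, g2⟩ := hv₃ v ((le_max_right _ _).trans hv)
  have hv1 : (1 : ℝ) ≤ v := by exact_mod_cast g2
  have hk2 : 2 ≤ k := by
    rw [hk]
    exact Nat.le_floor (by exact_mod_cast g1)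
  have hkv : k ≤ v := by
    rw [hk]
    apply Nat.floor_le_of_le
    calc (v : ℝ) ^ (ε / 32) ≤ (v : ℝ) ^ (1 : ℝ) :=
          Real.rpow_le_rpow_of_exponent_le hv1 (by linarith)
      _ = v := Real.rpow_one _
  have hr1 := fun x u w e l => r1_val (v := v) (k := k) (s := s) (t := t) x u w e l
  have hr2 := fun x u w e l => r2_val (v := v) (s := s) (t := t) x u w e l
  have key : ∀ y : Edge v → Bool, clq v k (fun e => !(y e)) = true ↔ ¬ nis v k y = true := by
    intro y
    rw [clq_not, Bool.not_eq_true', Bool.not_eq_true]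
  rcases h with h | h
  · -- the NP mode
    refine hv₁ v hva k N hk hN q s t r G (fun i => sb (r1 v k s t) (C i)) D
      (fun i => sb_free hr1 (C i) (hC i).1) (fun i => by rw [sb_nots]; exact (hC i).2.1)
      (fun i => by rw [sb_length]; exact (hC i).2.2) (fun x => ?_) hsr
    have e1 : (fun i => (sb (r1 v k s t) (C i)).Acc x) = fun i => (C i).Acc
        (Sum.elim (fun e => decide (e.1.2.val < k)) x) := by
      funext i
      exact propext (sb_acc hr1 (C i) x)
    rw [e1, ← h, good1 hk2 hkv]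
  · -- the coNP mode
    refine hv₁ v hva k N hk hN q s t r G (fun i => dl (sb (r2 v s t) (C i)))
      (fun P => ¬ D fun i => ¬ P i)
      (fun i => dl_free _ (sb_free hr2 (C i) (hC i).1))
      (fun i => by rw [dl_nots, sb_nots]; exact (hC i).2.1)
      (fun i => by rw [dl_length, sb_length]; exact (hC i).2.2) (fun x => ?_) hsr
    have e1 : (fun i => ¬ (dl (sb (r2 v s t) (C i))).Acc x) = fun i => All (C i)
        (Sum.elim (fun e => !(x e)) fun _ => true) := by
      funext i
      apply propext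
      rw [dl_acc, not_not]
      exact sb_all hr2 (C i) _
    show (¬ D fun i => ¬ (dl (sb (r2 v s t) (C i))).Acc x) ↔ _
    rw [e1, ← h, good2 hk2, key, not_not]

end Pool.Agent.NLQ
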