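import Pool.Agent.NNDT.Win
import Pool.Agent.NLQ.Core

/-!
# The bound for Boolean combinations of circuits which compute `nis`, in terms of the windows
-/

set_option autoImplicit false

namespace Pool.Agent.NLQ

open Finset Pool.Agent.NegLim Pool.Agent.NEG72 Pool.Agent.NNDT

open Classical in
/-- **The combinatorial bound.** -/
theorem boundq {v k Q b : ℕ} {W' : Finset ℕ} (hk2 : 2 ≤ k) (hb0 : 0 < b)
    (hD : ThreeAPFree (W' : Set ℕ))
    (hw : ∀ w ∈ Finset.range Q ×ˢ W', ∀ i < k, w.1 + i * w.2 < 2 * Q)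
    (hQb : k * (2 * Q) * b ≤ v) {q s t r G : ℕ} (C : Fin q → NCirc (Edge v) s t)
    (hN : ∀ i, (C i).NotsFree) (hr : ∀ i, (C i).nots ≤ r) (hG : ∀ i, (C i).gates.length ≤ G)
    (D : (Fin q → Prop) → Prop)
    (hacc : ∀ x, (D fun i => (C i).Acc x) ↔ nis v k x = true)
    (hm : (q * 2 ^ (s + r + 1) + 1) * (3 * (q * t) + 1) ≤ Q * W'.card) (l p : ℕ)
    (hl : l * (l - 1) ≤ k - 1) (hl2 : 2 ≤ l) (hp : 2 ≤ p) :
    2 ^ p ≤ 4 * ((p * l) ^ l) ^ 2 * (2 * (q * 2 ^ s * (G + 2))) ∨
      b ^ k ≤ (2 * (q * 2 ^ s * (G + 2))) * (((p * l) ^ l) ^ 2 * b ^ (k - (l + 1))) := by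
  set W := Finset.range Q ×ˢ W' with hW
  have hWc : W.card = Q * W'.card := by rw [hW, card_product, card_range]
  let φ : Fin W.card ≃ W := W.equivFin.symm
  have hX : 0 < Fintype.card (Fin k × Fin b → Fin (k - 1)) := by
    rw [Fintype.card_pos_iff]
    exact ⟨fun _ => ⟨0, by omega⟩⟩
  obtain ⟨i, h, h1, h2, h3⟩ := coreq (X := Fin k × Fin b → Fin (k - 1)) hX
    (fun i : Fin W.card => {e : Edge v | InWin k Q b (φ i).1 e})
    (fun i j e h1 h2 => φ.injective (Subtype.ext (InWin.unique h1 h2)))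
    (fun i => wf v k Q b (φ i).1)
    (by
      intro i x x' hx
      unfold wf
      congr 1
      funext e
      by_cases he : InWin k Q b (φ i).1 e
      · rw [hx e he]
      · simp [he])
    (by
      intro i
      unfold wf
      simp only [Bool.or_true]
      exact nis_top hk2)
    (fun i χ e => !(tneg (hw _ (φ i).2) hQb χ e))
    (by
      intro i χ
      rw [wf_not, winClq_neg (hw _ (φ i).2) hQb hk2 hb0 (by omega) χ]
      rfl) C hN hr hG D
    (by
      intro x hx
      rw [hacc]
      constructor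
      · intro h i
        unfold wf
        rw [nis_iff] at h ⊢
        intro S hS
        obtain ⟨e, h1, h2, h3⟩ := h S hS
        exact ⟨e, h1, h2, by simp [h3]⟩
      · intro h
        by_contra hne
        rw [nis_iff] at hne
        push Not at hne
        obtain ⟨S, hS, hSx⟩ := hne
        obtain ⟨w, hwW, hwS⟩ := one_window hD hk2 hS (by
          intro e h1 h2
          by_contra hno
          push Not at hno
          exact hSx e h1 h2 (hx e fun i => hno (φ i).1 (φ i).2))
        obtain ⟨i, hi⟩ : ∃ i, (φ i).1 = w := ⟨φ.symm ⟨w, hwW⟩, by simp⟩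
        have h0 := h i
        unfold wf at h0
        obtain ⟨e, h1, h2, h3⟩ := (nis_iff.1 h0) S hS
        have h4 := hwS e h1 h2
        rw [← hi] at h4
        rw [Bool.or_eq_true, Bool.not_eq_true', decide_eq_false_iff_not] at h3
        rcases h3 with h3 | h3
        · exact h3 h4
        · exact hSx e h1 h2 h3)
    (by rw [hWc]; exact hm)
  exact win_final (hw _ (φ i).2) hQb h1 h2 (by convert h3) l p hl hl2 hp

end Pool.Agent.NLQ
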